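import Pool.Agent.helper96.S5.SpecM

/-!
# MP_0b485e_lc, level 5, row FIN: the theorem from the rows of the blocks L, M
-/

set_option autoImplicit false

namespace S5

open PF

theorem FIN_row (hNEG : NEG_stmt) (hDIA : DIA_stmt) (hMC2 : MC2_stmt) (hRBD : RBD_stmt)
    (hSEN : SEN_stmt) (hMGR : MGR_stmt) (hWFT : WFT_stmt) (hMFM : MFM_stmt) (hCPI : CPI_stmt)
    (hSNI : SNI_stmt) (hMSD : MSD_stmt) : FIN_stmt := by
  intro hK b hb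
  have hb' : Dec false := by
    cases b
    · exact hb
    · exact hNEG hb
  obtain ⟨P, ⟨hPd, hPc⟩, hP⟩ := hb'
  obtain ⟨c, hc⟩ := hDIA
  obtain ⟨A, z0, z1, x0, hOk, hx0, h0, h1⟩ := hMC2 c
  obtain ⟨q, μ, hPat, hRp⟩ := hRBD EStar (nrl A) (thy A z1) 0
  obtain ⟨hgr, hM⟩ := hMGR x0 hx0
  obtain ⟨hW1, hW2⟩ := hWFT A z1
  obtain ⟨Q, Φ, hQ, hΦ, hmain⟩ := hSEN EStar q μ (fun e => grd (x0 e)) (fun e => sm5 (x0 e)) hPat
    hgr hM (fun e a ha => (hW2 (x0 e) a ha).2)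
  have hiff : ∀ e, P (Q e, (Φ e).str) ↔
      ∃ c' : ℕ → EStar, ∃ p : ℕ → EStar,
        Bd (nrl A) (thy A z1) 0 (dl (grd (x0 e)) (sm5 (x0 e)) c') p := by
    intro e
    obtain ⟨g1, g2, g3⟩ := hmain e
    rw [hP (Q e) (Φ e) g1 g2, g3]
    refine exists_congr fun c' => ?_
    exact (hRp (dl (grd (x0 e)) (sm5 (x0 e)) c') (fun _ => ⊥)).symm
  have hR : 0 < nrl A := by
    unfold nrl
    omega
  refine hc (fun e => P (Q e, (Φ e).str)) ⟨fun e => hPd _, hPc.comp (hQ.pair hΦ)⟩ ⟨?_, ?_⟩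
  · intro e he
    obtain ⟨N, ρ, cc, hmdl⟩ := hMFM A z0 z1 (x0 e) hOk (h0 e he)
    exact (hiff e).2 (hCPI EStar hK (nrl A) (thy A z1) 0 (grd (x0 e)) (sm5 (x0 e)) hW1 hR
      (hW2 (x0 e)) N ρ cc hmdl)
  · intro e he hPe
    obtain ⟨c', p, hBd⟩ := (hiff e).1 hPe
    exact hMSD A z1 (x0 e) (h1 e he) (hSNI EStar (nrl A) (thy A z1) 0 (grd (x0 e)) (sm5 (x0 e))
      c' p hW1 (hW2 (x0 e)) hBd)

end S5
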